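import Pool.Agent.U762.GA.Stm

set_option autoImplicit false

/-! Project GA, package REC2: the rate of decay of the linear recursion (after
`Pool/Agent/U165/RP/REC.lean` of helper165). -/

namespace Pool.Agent.U94.GA.REC2

open Filter Pool.Agent.U762.RP

theorem t_REC2 : Pool.Agent.U762.GA.S_REC2 := by
  intro ε R ρ lam hε hε1 hR hρ hρ1 hq
  have hq0 : 0 < (1 - ε) * R := mul_pos (by linarith) hR
  obtain ⟨t, ht1, ht2⟩ := exists_between (max_lt hq hρ1)
  have htq : (1 - ε) * R < t := (le_max_left _ _).trans_lt ht1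
  have htρ : ρ < t := (le_max_right _ _).trans_lt ht1
  have ht0 : 0 < t := hq0.trans htq
  have hl0 : 0 < lam := ht0.trans ht2
  have hd : 0 < t - (1 - ε) * R := by linarith
  have hRε : 0 < R * ε := mul_pos hR hε
  set C : ℝ := 1 + R * ε / (t - (1 - ε) * R) with hC
  have hC1 : R * ε ≤ (t - (1 - ε) * R) * C := by
    rw [hC, mul_add, mul_one, mul_div_cancel₀ _ hd.ne']
    linarith
  have hC0 : 1 ≤ C := by
    rw [hC]
    have := div_pos hRε hd
    linarith
  have h1 : ∀ k, g ε R ρ k ≤ C * t ^ k := by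
    intro k
    induction k with
    | zero => simpa [g] using hC0
    | succ k ih =>
      have h2 : ρ ^ k ≤ t ^ k := pow_le_pow_left₀ hρ htρ.le k
      have h3 : R * ε * ρ ^ k ≤ (t - (1 - ε) * R) * C * t ^ k :=
        (mul_le_mul_of_nonneg_left h2 hRε.le).trans
          (mul_le_mul_of_nonneg_right hC1 (pow_nonneg ht0.le k))
      have h4 : (1 - ε) * R * g ε R ρ k ≤ (1 - ε) * R * (C * t ^ k) :=
        mul_le_mul_of_nonneg_left ih hq0.le
      calc g ε R ρ (k + 1) = R * ε * ρ ^ k + (1 - ε) * R * g ε R ρ k := by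
            change R * (ε * ρ ^ k + (1 - ε) * g ε R ρ k) = _
            ring
        _ ≤ (t - (1 - ε) * R) * C * t ^ k + (1 - ε) * R * (C * t ^ k) := add_le_add h3 h4
        _ = C * t ^ (k + 1) := by ring
  have h5 : Tendsto (fun k : ℕ => C * (t / lam) ^ k) atTop (nhds 0) := by
    have := (tendsto_pow_atTop_nhds_zero_of_lt_one (div_nonneg ht0.le hl0.le)
      ((div_lt_one hl0).2 ht2)).const_mul C
    rwa [mul_zero] at this
  obtain ⟨k₀, hk₀⟩ := eventually_atTop.1 (h5.eventually (gt_mem_nhds one_pos))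
  refine ⟨k₀, fun k hk => (h1 k).trans ?_⟩
  have h6 := hk₀ k hk
  rw [div_pow, ← mul_div_assoc, div_lt_one (pow_pos hl0 k)] at h6
  exact h6.le

end Pool.Agent.U94.GA.REC2
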